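import Pool.Agent.H899R2.Illum.InnerBody

set_option autoImplicit false

namespace Pool.Agent.Results.MP_26bcd4_gt.InnerUnbounded

/-- `K ⊆ ℝᵈ` is a convex body: compact, convex, with nonempty interior. -/
def IsConvexBody {d : ℕ} (K : Set (EuclideanSpace ℝ (Fin d))) : Prop :=
  IsCompact K ∧ Convex ℝ K ∧ (interior K).Nonempty

/-- `A ⊆ bd K` is an inner illuminating set of `K`: for every `x ∈ bd K` there are `a ∈ A` and
`0 < ε < 1` with `(1 - ε) x + ε a ∈ int K`. -/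
def IsInnerIlluminating {d : ℕ} (K A : Set (EuclideanSpace ℝ (Fin d))) : Prop :=
  A ⊆ frontier K ∧ ∀ x ∈ frontier K, ∃ a ∈ A, ∃ ε : ℝ, 0 < ε ∧ ε < 1 ∧
    (1 - ε) • x + ε • a ∈ interior K

/-- `A` is a primitive inner illuminating set of `K`: no proper subset of it is inner
illuminating. -/
def IsPrimitiveInner {d : ℕ} (K A : Set (EuclideanSpace ℝ (Fin d))) : Prop :=
  IsInnerIlluminating K A ∧ ∀ C, C ⊂ A → ¬ IsInnerIlluminating K C

/-- In every dimension `d ≥ 4`, convex bodies have primitive inner illuminating sets of arbitrarily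
large finite cardinality. -/
theorem result : ∀ d : ℕ, 4 ≤ d → ∀ n : ℕ, ∃ K A : Set (EuclideanSpace ℝ (Fin d)),
    IsConvexBody K ∧ IsPrimitiveInner K A ∧ A.Finite ∧ n ≤ A.ncard := by
  intro d hd n
  obtain ⟨k, rfl⟩ : ∃ k, d = k + 4 := ⟨d - 4, by omega⟩
  obtain ⟨K, A, h1, h2, h3, h4, h5, h6, h7⟩ :=
    Pool.Agent.H899R2.Illum.exists_inner k (n + 5) (by omega)
  exact ⟨K, A, ⟨h1, h2, h3⟩, ⟨h6, h7⟩, h4, by omega⟩

end Pool.Agent.Results.MP_26bcd4_gt.InnerUnbounded
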